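import Pool.Agent.H68.PG.G0

set_option autoImplicit false

/-!
# [H68 PG COO] Coordinates of the classes with trivial constants, 80-120 lines

`yx hY x v = x p • ep 2 (-i) (1 - i)` for the prime `v = eS hY p` of the class `i = p.1 = cla hY v`.
* `epc`: the coordinates of `ep 2 (-i') (1 - i')` at `-i`, `1 - i`, `2 - i` (`i, i' : Fin 3`): at `2 - i` it is `0` if `i' = i`, otherwise `1`; the sum of the coordinates at `-i` and `1 - i` is `0` if `i' = i`, otherwise `1` (`fin_cases` and `rfl`/`decide`/`simp [ep_apply]`; `-1 = 1` in `ZMod 2`).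
* `yx_dg`: the coordinate `2 - i` of `∑ v, deg v • yx x v`: transfer the sum along `eS hY` (`Equiv.sum_comp`), `Fintype.sum_sigma'`/`Finset.sum_sigma` (`SX Y` is a sigma type), `epc`, `dgp`.
* `wx_iff`: `x ∈ WX Y` iff `∀ i, dgp Y x i = dgp Y x 0`.  If the sum is `0` then by `yx_dg` for each `i` the sum of the two other `dgp` is `0`: all are equal (characteristic 2).  Conversely if all are equal then all coordinates `2 - i` are `0`, and every `k : Fin 3` is `2 - (2 - k)`; `Subtype.ext`, `funext`.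
* `yx_loc`: transfer the sum over `Finset.univ.erase (eS hY p)` to `univ.erase p` (`Finset.sum_bij` or: `∑ over erase = ∑ over univ - the term`, in characteristic 2; or `Finset.sum_map`/`Finset.map_erase`), the coordinates by `epc`, `lm (chiB h2) = lam` (`lm_chiB`); `mx Y p p = lam (Y (p.1 + 1)) p.2.1`, `mx Y p r = 0` for
  `r ≠ p` in the same class, `lam r.2.1 p.2.1` otherwise.  A sum of elements of `XX` has the sum of the coordinates as coordinate (`trv_coe_sum` in `PM.TRV` is private: copy it, or use the linear map `(LinearMap.proj k).comp (XM m ℓ).subtype`, `map_sum`).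
-/

namespace Pool.Agent.H68.PG

open Polynomial WithZero IsDedekindDomain
open Pool.Agent.H94.PL
open Pool.Agent.H94.PM
open Pool.Agent.H94.PC (pf mem_pf mem_pf' lam bt)
open Pool.Agent.H94.PS (Tr SX dgp WX mx RadX)

variable {F : Type} [Field F] [Finite F] {d : ℕ} {Y : Fin 3 → F[X]}

/-- the exponents at the primes of bad reduction -/
noncomputable def yx (hY : Tr d Y) (x : SX Y → ZMod 2) (v : pf (dl (pt Y))) : XX 3 2 :=
  x ((eS hY).symm v) • ep 2 (-cla hY v) (1 - cla hY v)

theorem epc2 (i i' : Fin 3) : (ep 2 (-i') (1 - i')).1 (2 - i) = if i' = i then 0 else 1 := by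
  rw [ep_apply]
  revert i i'
  decide

theorem epc01 (i i' : Fin 3) : (ep 2 (-i') (1 - i')).1 (-i) + (ep 2 (-i') (1 - i')).1 (1 - i) =
    if i' = i then 0 else 1 := by
  rw [ep_apply, ep_apply]
  revert i i'
  decide

private theorem coo_sum {ι : Type*} (s : Finset ι) (f : ι → XX 3 2) (k : Fin 3) :
    (∑ i ∈ s, f i).1 k = ∑ i ∈ s, (f i).1 k := by
  classical
  induction s using Finset.induction_on with
  | empty => rfl
  | insert a s ha ih =>
    rw [Finset.sum_insert ha, Finset.sum_insert ha, ← ih]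
    rfl

private theorem coo_yx (hY : Tr d Y) (x : SX Y → ZMod 2) (r : SX Y) :
    yx hY x (eS hY r) = x r • ep 2 (-r.1) (1 - r.1) := by
  rw [yx, cla_eS hY r, Equiv.symm_apply_apply]

theorem yx_dg (hY : Tr d Y) (x : SX Y → ZMod 2) (i : Fin 3) :
    (∑ v : pf (dl (pt Y)), (v.1.natDegree : ZMod 2) • yx hY x v).1 (2 - i) =
      ∑ i' ∈ Finset.univ.erase i, dgp Y x i' := by
  rw [coo_sum, ← Equiv.sum_comp (eS hY)]
  have h1 : ∀ r : SX Y, (((eS hY r).1.natDegree : ZMod 2) • yx hY x (eS hY r)).1 (2 - i) =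
      if r.1 = i then 0 else x r * (r.2.1.natDegree : ZMod 2) := by
    intro r
    rw [coo_yx]
    show (r.2.1.natDegree : ZMod 2) * (x r * (ep 2 (-r.1) (1 - r.1)).1 (2 - i)) = _
    rw [epc2]
    split_ifs
    · rw [mul_zero, mul_zero]
    · rw [mul_one, mul_comm]
  rw [Finset.sum_congr rfl fun r _ => h1 r, Fintype.sum_sigma]
  have h2 : ∀ i' : Fin 3, (∑ P : {P // P ∈ pf (Y i')},
      (if (⟨i', P⟩ : SX Y).1 = i then 0 else x ⟨i', P⟩ * (P.1.natDegree : ZMod 2))) =
      if i' = i then 0 else dgp Y x i' := by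
    intro i'
    split_ifs with h
    · exact Finset.sum_eq_zero fun P _ => rfl
    · rfl
  rw [Finset.sum_congr rfl fun i' _ => h2 i', ← Finset.add_sum_erase _ _ (Finset.mem_univ i),
    if_pos rfl, zero_add]
  exact Finset.sum_congr rfl fun i' hi' => if_neg (Finset.ne_of_mem_erase hi')

theorem wx_iff (hY : Tr d Y) (x : SX Y → ZMod 2) :
    ∑ v : pf (dl (pt Y)), (v.1.natDegree : ZMod 2) • yx hY x v = 0 ↔ x ∈ WX Y := by
  have hE : ∀ i : Fin 3, (Finset.univ : Finset (Fin 3)).erase i = {i + 1, i + 2} := by decide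
  have hne : ∀ i : Fin 3, i + 1 ≠ i + 2 := by decide
  have h0 : ∀ a b : ZMod 2, a + b = 0 ↔ a = b := by decide
  have hk : ∀ k : Fin 3, 2 - (2 - k) = k := by decide
  constructor
  · intro h
    have h1 : ∀ i, dgp Y x (i + 1) = dgp Y x (i + 2) := by
      intro i
      have h2 := yx_dg hY x i
      rw [h, hE i, Finset.sum_pair (hne i)] at h2
      exact (h0 _ _).1 h2.symm
    intro i
    have e1 : dgp Y x 1 = dgp Y x 2 := h1 0
    have e2 : dgp Y x 2 = dgp Y x 0 := h1 1
    have e3 : dgp Y x 0 = dgp Y x 1 := h1 2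
    fin_cases i
    · rfl
    · exact e3.symm
    · exact e2
  · intro h
    have h1 : ∀ i, dgp Y x i = dgp Y x 0 := h
    apply Subtype.ext
    funext k
    have h2 := yx_dg hY x (2 - k)
    rw [hk k] at h2
    rw [h2, hE, Finset.sum_pair (hne _), h1 (2 - k + 1), h1 (2 - k + 2)]
    exact CharTwo.add_self_eq_zero _

open Classical in
theorem yx_loc (h2 : (2 : F) ≠ 0) (hY : Tr d Y) (x : SX Y → ZMod 2) (p : SX Y) :
    (∑ v' ∈ Finset.univ.erase (eS hY p), lm (chiB h2) v'.1 p.2.1 • yx hY x v').1 (-p.1) +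
      (∑ v' ∈ Finset.univ.erase (eS hY p), lm (chiB h2) v'.1 p.2.1 • yx hY x v').1 (1 - p.1) +
        x p * lam (Y (p.1 + 1)) p.2.1 = ∑ r, mx Y p r * x r := by
  rw [coo_sum, coo_sum, ← Finset.sum_add_distrib]
  have hE : Finset.univ.erase (eS hY p) =
      (Finset.univ.erase p).map (eS hY).toEmbedding := by
    ext v
    rw [Finset.mem_erase, Finset.mem_map]
    constructor
    · rintro ⟨h1, -⟩
      refine ⟨(eS hY).symm v, Finset.mem_erase.2 ⟨fun h => h1 ?_, Finset.mem_univ _⟩,
        (eS hY).apply_symm_apply v⟩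
      rw [← h, Equiv.apply_symm_apply]
    · rintro ⟨r, hr, rfl⟩
      exact ⟨fun h => (Finset.ne_of_mem_erase hr) ((eS hY).injective h), Finset.mem_univ _⟩
  rw [hE, Finset.sum_map, ← Finset.add_sum_erase _ _ (Finset.mem_univ p), add_comm]
  congr 1
  · rw [mx, if_pos rfl, mul_comm]
  · refine Finset.sum_congr rfl fun r hr => ?_
    have hrp : p ≠ r := (Finset.ne_of_mem_erase hr).symm
    show (lm (chiB h2) (eS hY r).1 p.2.1 • yx hY x (eS hY r)).1 (-p.1) +
      (lm (chiB h2) (eS hY r).1 p.2.1 • yx hY x (eS hY r)).1 (1 - p.1) = mx Y p r * x r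
    rw [coo_yx, eS_val, lm_chiB]
    show lam r.2.1 p.2.1 * (x r * (ep 2 (-r.1) (1 - r.1)).1 (-p.1)) +
      lam r.2.1 p.2.1 * (x r * (ep 2 (-r.1) (1 - r.1)).1 (1 - p.1)) = mx Y p r * x r
    rw [← mul_add, ← mul_add, epc01, mx, if_neg hrp]
    by_cases h : p.1 = r.1
    · rw [if_pos h.symm, if_pos h, mul_zero, mul_zero, zero_mul]
    · rw [if_neg (fun h' => h h'.symm), if_neg h, mul_one]

end Pool.Agent.H68.PG
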