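import Pool.Agent.H94.PS.Defs
import Pool.Agent.H94.PN.SCD
import Pool.Agent.H94.PM.QV

set_option autoImplicit false

/-!
# [H68 PG G0] The 2-Selmer group of `y² = x (x - A) (x - B)`: points and classes of primes

`Y 0 + Y 1 + Y 2 = 0`; the points are `pt Y = (0, Y 0, -Y 1)`, with `pt Y (1 - i) - pt Y (-i) = Y i` (indices modulo 3).
The third point for the class `i` is `pt Y (2 - i)`, and `pt Y (-i) - pt Y (2 - i) = Y (i + 1)`.
-/

namespace Pool.Agent.H68.PG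

open Polynomial
open Pool.Agent.H94.PL
open Pool.Agent.H94.PM
open Pool.Agent.H94.PC (pf mem_pf mem_pf' lam bt bt_mul bt_eq_zero_iff bt_eq_one_iff)
open Pool.Agent.H94.PS (Tr SX dgp WX mx RadX)

section
variable {F : Type} [Field F] [Finite F]

theorem exists_nonsq (h2 : (2 : F) ≠ 0) : ∃ a : F, ¬ IsSquare a := by
  have : Fintype F := Fintype.ofFinite F
  refine FiniteField.exists_nonsquare fun h => h2 ?_
  have h1 := ringChar.of_eq h
  exact_mod_cast CharP.cast_eq_zero F 2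

/-- the quadratic character as a logarithm -/
noncomputable def chiB (h2 : (2 : F) ≠ 0) : LChar F 2 where
  lg := bt
  mul := fun hx hy => bt_mul hx hy
  surj := by
    obtain ⟨a, ha⟩ := exists_nonsq h2
    refine ⟨a, ?_, bt_eq_one_iff.2 ha⟩
    rintro rfl
    exact ha IsSquare.zero
  ker := by
    intro x hx h
    obtain ⟨y, hy⟩ := bt_eq_zero_iff.1 h
    refine ⟨y, ?_, by rw [hy, pow_two]⟩
    rintro rfl
    exact hx (by rw [hy, mul_zero])

theorem lg_chiB (h2 : (2 : F) ≠ 0) (x : F) : (chiB h2).lg x = bt x := rfl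

theorem lm_chiB (h2 : (2 : F) ≠ 0) (A B : F[X]) : lm (chiB h2) A B = lam A B := rfl

/-- the points -/
noncomputable def pt (Y : Fin 3 → F[X]) : Fin 3 → F[X] := ![0, Y 0, -Y 1]

theorem pt_sub {Y : Fin 3 → F[X]} (h : Y 0 + Y 1 + Y 2 = 0) (i : Fin 3) :
    pt Y (1 - i) - pt Y (-i) = Y i := by
  have h2 : Y 2 = -(Y 0 + Y 1) := by linear_combination h
  fin_cases i
  · show Y 0 - 0 = Y 0
    rw [sub_zero]
  · show 0 - -Y 1 = Y 1
    rw [zero_sub, neg_neg]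
  · show -Y 1 - Y 0 = Y 2
    rw [h2]
    ring

theorem pt_sub2 {Y : Fin 3 → F[X]} (h : Y 0 + Y 1 + Y 2 = 0) (i : Fin 3) :
    pt Y (-i) - pt Y (2 - i) = Y (i + 1) := by
  have h1 := pt_sub h (i + 1)
  have e1 : (1 : Fin 3) - (i + 1) = -i := by
    fin_cases i <;> rfl
  have e2 : -(i + 1) = 2 - i := by
    fin_cases i <;> rfl
  rw [e1, e2] at h1
  exact h1

theorem dl_pt {Y : Fin 3 → F[X]} (h : Y 0 + Y 1 + Y 2 = 0) : dl (pt Y) = Y 0 * Y 1 * Y 2 := by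
  have h2 : Y 2 = -(Y 0 + Y 1) := by linear_combination h
  have e : prs 3 = {((0 : Fin 3), (1 : Fin 3)), (0, 2), (1, 2)} := by decide
  rw [dl, e, Finset.prod_insert (by decide), Finset.prod_insert (by decide),
    Finset.prod_singleton]
  show (0 - Y 0) * ((0 - -Y 1) * (Y 0 - -Y 1)) = Y 0 * Y 1 * Y 2
  rw [h2]
  ring

variable {d : ℕ} {Y : Fin 3 → F[X]}

theorem tr_ne (hY : Tr d Y) (i : Fin 3) : Y i ≠ 0 := by
  have h := hY.sqf.ne_zero
  intro h0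
  apply h
  fin_cases i
  · have h1 : Y 0 = 0 := h0
    rw [h1, zero_mul, zero_mul]
  · have h1 : Y 1 = 0 := h0
    rw [h1, mul_zero, zero_mul]
  · have h1 : Y 2 = 0 := h0
    rw [h1, mul_zero]

theorem tr_dvd (hY : Tr d Y) (i : Fin 3) : Y i ∣ Y 0 * Y 1 * Y 2 := by
  fin_cases i
  · exact Dvd.dvd.mul_right (Dvd.intro _ rfl) _
  · exact Dvd.dvd.mul_right (Dvd.intro_left _ rfl) _
  · exact Dvd.intro_left _ rfl

theorem tr_cop (hY : Tr d Y) {P : F[X]} (hP : Irreducible P) {i j : Fin 3} (hij : i ≠ j)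
    (hi : P ∣ Y i) (hj : P ∣ Y j) : False := by
  have hs := hY.sqf
  have h : P * P ∣ Y 0 * Y 1 * Y 2 := by
    have h01 : P ∣ Y 0 → P ∣ Y 1 → P * P ∣ Y 0 * Y 1 * Y 2 := fun h1 h2 =>
      Dvd.dvd.mul_right (mul_dvd_mul h1 h2) _
    have h02 : P ∣ Y 0 → P ∣ Y 2 → P * P ∣ Y 0 * Y 1 * Y 2 := fun h1 h2 =>
      mul_dvd_mul (Dvd.dvd.mul_right h1 _) h2
    have h12 : P ∣ Y 1 → P ∣ Y 2 → P * P ∣ Y 0 * Y 1 * Y 2 := fun h1 h2 =>
      mul_dvd_mul (Dvd.dvd.mul_left h1 _) h2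
    fin_cases i <;> fin_cases j
    · exact absurd rfl hij
    · exact h01 hi hj
    · exact h02 hi hj
    · exact h01 hj hi
    · exact absurd rfl hij
    · exact h12 hi hj
    · exact h02 hj hi
    · exact h12 hj hi
    · exact absurd rfl hij
  exact hP.not_isUnit (hs P h)

theorem tr_sq (hY : Tr d Y) {P : F[X]} (hP : Irreducible P) (i : Fin 3) : ¬ P ^ 2 ∣ Y i := by
  intro h
  rw [pow_two] at h
  exact hP.not_isUnit (hY.sqf P (h.trans (tr_dvd hY i)))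

theorem pt_ne (hY : Tr d Y) (i k : Fin 3) (hik : i ≠ k) : pt Y i ≠ pt Y k := by
  intro h
  have h0 : pt Y i - pt Y k = 0 := sub_eq_zero.2 h
  have hd : pt Y i - pt Y k ∣ dl (pt Y) := dvd_dl hik
  rw [h0, zero_dvd_iff, dl_pt hY.sum] at hd
  exact hY.sqf.ne_zero hd

theorem dl_ne (hY : Tr d Y) : dl (pt Y) ≠ 0 := by
  rw [dl_pt hY.sum]
  exact hY.sqf.ne_zero

theorem dvd_cases (hY : Tr d Y) {P : F[X]} (hP : Irreducible P) (h : P ∣ dl (pt Y)) :
    ∃ i, P ∣ Y i := by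
  rw [dl_pt hY.sum] at h
  rcases hP.prime.dvd_or_dvd h with h | h
  · rcases hP.prime.dvd_or_dvd h with h | h
    · exact ⟨0, h⟩
    · exact ⟨1, h⟩
  · exact ⟨2, h⟩

/-- the primes of the three classes are the primes of `dl (pt Y)` -/
noncomputable def eS (hY : Tr d Y) : SX Y ≃ pf (dl (pt Y)) :=
  Equiv.ofBijective (fun p => ⟨p.2.1, (mem_pf (dl_ne hY)).2 ⟨(mem_pf' p.2.2).1,
    (mem_pf' p.2.2).2.1, by
      rw [dl_pt hY.sum]
      exact (mem_pf' p.2.2).2.2.trans (tr_dvd hY p.1)⟩⟩) ⟨by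
    rintro ⟨i, P, hP⟩ ⟨j, Q, hQ⟩ h
    have hPQ : P = Q := congrArg Subtype.val h
    subst hPQ
    have hij : i = j := by
      by_contra hne
      exact tr_cop hY (mem_pf' hP).2.1 hne (mem_pf' hP).2.2 (mem_pf' hQ).2.2
    subst hij
    rfl, by
    rintro ⟨P, hP⟩
    obtain ⟨h1, h2, h3⟩ := mem_pf' hP
    obtain ⟨i, hi⟩ := dvd_cases hY h2 h3
    exact ⟨⟨i, P, (mem_pf (tr_ne hY i)).2 ⟨h1, h2, hi⟩⟩, rfl⟩⟩

theorem eS_val (hY : Tr d Y) (p : SX Y) : (eS hY p).1 = p.2.1 := rfl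

/-- the class of a prime -/
noncomputable def cla (hY : Tr d Y) (v : pf (dl (pt Y))) : Fin 3 := ((eS hY).symm v).1

theorem cla_eS (hY : Tr d Y) (p : SX Y) : cla hY (eS hY p) = p.1 := by
  rw [cla, Equiv.symm_apply_apply]

theorem cla_dvd (hY : Tr d Y) (v : pf (dl (pt Y))) : v.1 ∣ Y (cla hY v) := by
  have h : v.1 = ((eS hY).symm v).2.1 := by
    conv_lhs => rw [← Equiv.apply_symm_apply (eS hY) v]
    rfl
  rw [h]
  exact (mem_pf' ((eS hY).symm v).2.2).2.2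

/-- the local conditions at the primes of bad reduction -/
noncomputable def WlY (hY : Tr d Y) (v : pf (dl (pt Y))) (b : ZMod 2) :
    Submodule (ZMod 2) (XX 3 2 × XX 3 2) :=
  WT (-cla hY v) (1 - cla hY v) (b + lam (Y (cla hY v + 1)) v.1)

end

end Pool.Agent.H68.PG
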