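import Pool.Agent.H68.PG.KER

set_option autoImplicit false

/-!
# [H68 PG GEO] The 2-Selmer group of `y² = x (x - A) (x - B)` has `4 * card (RadX Y)` elements

`Y = (A, -B, B - A)`, all of odd degree `d`, with squarefree product.
-/

namespace Pool.Agent.H68.PG

open Polynomial WithZero IsDedekindDomain
open Pool.Agent.H94.PL
open Pool.Agent.H94.PM
open Pool.Agent.H94.PC (pf mem_pf mem_pf' lam bt)
open Pool.Agent.H94.PS (Tr SX dgp WX mx RadX)

variable {F : Type} [Field F] [Finite F] {d : ℕ} {Y : Fin 3 → F[X]}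

theorem geo_pt [DecidableEq (RatFunc F)] (h2 : (2 : F) ≠ 0) (hY : Tr d Y) (hd : Odd d) :
    Nat.card (H94.PN.SelC 2 1 1 (pt Y) (1 : F[X])) = 4 * Nat.card (RadX Y) := by
  have hm : Nat.Coprime 3 2 := by decide
  have hα : 2 ∣ 1 * 3 + 1 := by decide
  have hq : 2 ∣ Nat.card F - 1 := by
    have : Fintype F := Fintype.ofFinite F
    have h := FiniteField.odd_card_of_char_ne_two (F := F) (fun h => by
      have := ringChar.of_eq h
      exact h2 (by exact_mod_cast CharP.cast_eq_zero F 2))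
    rw [Nat.card_eq_fintype_card]
    obtain ⟨j, hj⟩ := Nat.odd_iff.2 h
    exact ⟨j, by omega⟩
  obtain ⟨Wi, hci, hWi⟩ := exists_OKi (chiB h2) hq hm hα 1 (pt Y)
  have hD : (1 : F[X]) ∈ Cls (dl (pt Y)) 0 := by
    rw [mem_Cls]
    exact ⟨monic_one, natDegree_one, squarefree_one, isCoprime_one_left⟩
  rw [H94.PN.scd (chiB h2) hq hm hα one_ne_zero (pt_ne hY) (okl_WlY h2 hY)
    (fun v b => card_WlY hY v b) hWi hci hD,
    Submodule.card_eq_card_quotient_mul_card (LinearMap.ker (phi (chiB h2) (WlY hY) Wi)),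
    ker_card h2 hY hd hWi hci,
    Nat.card_congr ((phi (chiB h2) (WlY hY) Wi).quotKerEquivOfSurjective
      (phi_sur h2 hY hd (okl_WlY h2 hY) hWi)).toEquiv, card_XX (by norm_num), mul_comm]
  norm_num

theorem geo [DecidableEq (RatFunc F)] (h2 : (2 : F) ≠ 0) {A B : F[X]}
    (hY : Tr d ![A, -B, B - A]) (hd : Odd d) :
    Nat.card (H94.PN.SelC 2 1 1 ![0, A, B] (1 : F[X])) =
      4 * Nat.card (RadX ![A, -B, B - A]) := by
  have h := geo_pt h2 hY hd
  have e : pt ![A, -B, B - A] = ![0, A, B] := by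
    show ![0, A, - -B] = ![0, A, B]
    rw [neg_neg]
  rw [← e]
  exact h

end Pool.Agent.H68.PG
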