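import Pool.Agent.H68.PG.G0
import Pool.Agent.H94.PM.WL2

set_option autoImplicit false

/-!
# [H68 PG TOR] The 2-torsion classes at infinity, 60-100 lines

`D = 1`, `c = 1`, `χ = chiB h2`, `m = 3`, `ℓ = 2`, `α = 1`; `hm : Nat.Coprime 3 2`, `hα : 2 ∣ 1 * 3 + 1`, `hA = pt_ne hY`, `1` is monic, squarefree, coprime to everything.
* `s' k = (s.1 k).val : ℤ` (as `sv` in the proof of `km_dich` in `Pool/Agent/H94/PM/TRF.lean`), `2 ∣ ∑ s' k`.  `δ k = tv (-DK 1 1) (AK (pt Y)) s' k`; `IsSln 2 1 1 (pt Y) 1 δ` by `sln_of_tcn`, `z = zM χ (pt Y) 1 δ ∈ KM` by `zM_mem`.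
* `lgs_i`: `loci (z.1, xi z.2) = lgs (UI χ) (toI F ∘ δ)`.  `lgs_fst`: its first component at `k` is `vl (wI F) (toI F (δ k))`, `toI F (δ k) = tv (-toI (DK 1 1)) (toI ∘ AK) s' k` (`map_tv`, `map_neg`), and by `vl_tv` its valuation is
  `s' k * vl (toI (DK 1 1)) + ∑ i ∈ univ.erase k, (s' i - s' k) * vl (toI (AK k) - toI (AK i))`.  `DK 1 1 = 1` has valuation `0` (`vl_inf_poly` with degree `0`, or `vl_one`), the difference is `toI (algebraMap (pt Y k - pt Y i))` (`wl2_sub_i` in `PM.WL2`, import `Pool.Agent.H94.PM.WL2` if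
  you want) with `vl = - natDegree` (`vl_inf_poly`), `pt Y k - pt Y i = ± Y j` has degree `d` (`hY.deg`, `pt_sub`; `fin_cases` on `k`, `i`), odd.  So modulo `2` the sum is `∑ i ≠ k, (s i - s k) = ∑ i ≠ k, s i - 2 s k = - s k = s k` (`∑ s = 0`, characteristic 2).
-/

namespace Pool.Agent.H68.PG

open Polynomial WithZero IsDedekindDomain
open Pool.Agent.H94.PL
open Pool.Agent.H94.PM
open Pool.Agent.H94.PC (pf mem_pf mem_pf' lam bt)
open Pool.Agent.H94.PS (Tr SX dgp WX mx RadX)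

variable {F : Type} [Field F] [Finite F] {d : ℕ} {Y : Fin 3 → F[X]}

private theorem tor_pair : ∀ a b : Fin 3, a ≠ b →
    ∃ j : Fin 3, (a = 1 - j ∧ b = -j) ∨ (a = -j ∧ b = 1 - j) := by
  decide

private theorem tor_deg (hY : Tr d Y) {a b : Fin 3} (hab : a ≠ b) :
    (pt Y a - pt Y b).natDegree = d := by
  obtain ⟨j, hj⟩ := tor_pair a b hab
  rcases hj with hj | hj
  · rw [hj.1, hj.2, pt_sub hY.sum j]
    exact hY.deg j
  · have h8 : pt Y (-j) - pt Y (1 - j) = -Y j := by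
      rw [← pt_sub hY.sum j]
      ring
    rw [hj.1, hj.2, h8, natDegree_neg]
    exact hY.deg j

theorem tor_sur [DecidableEq (RatFunc F)] (h2 : (2 : F) ≠ 0) (hY : Tr d Y) (hd : Odd d)
    {Wl : pf (dl (pt Y)) → ZMod 2 → Submodule (ZMod 2) (XX 3 2 × XX 3 2)}
    {Wi : ZMod 2 → Submodule (ZMod 2) (XX 3 2 × XX 3 2)}
    (hWl : OKl (chiB h2) 1 (pt Y) Wl) (hWi : OKi (chiB h2) 1 1 (pt Y) Wi) (s : XX 3 2) :
    ∃ z ∈ KM (chiB h2) (DC (chiB h2) 1 (pt Y) Wl Wi) 1,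
      (loci (z.1, xi (chiB h2) (dl (pt Y)) 1 z.2)).1 = s := by
  classical
  have hm : Nat.Coprime 3 2 := by decide
  have hα : 2 ∣ 1 * 3 + 1 := by decide
  have hA := pt_ne hY
  have h10 : (1 : F) ≠ 0 := one_ne_zero
  obtain ⟨sv, hsv⟩ : ∃ sv : Fin 3 → ℤ, ∀ k, ((sv k : ℤ) : ZMod 2) = s.1 k :=
    ⟨fun k => ((s.1 k).val : ℤ), fun k => by
      rw [Int.cast_natCast, ZMod.natCast_zmod_val]⟩
  have hsd : ((2 : ℕ) : ℤ) ∣ ∑ k, sv k := by
    rw [← ZMod.intCast_zmod_eq_zero_iff_dvd, Int.cast_sum]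
    simp only [hsv]
    exact XX_sum s
  obtain ⟨δ, hδ⟩ : ∃ δ : Fin 3 → RatFunc F,
      δ = fun k => tv (-DK (1 : F) 1) (AK (pt Y)) sv k := ⟨_, rfl⟩
  have hsl : IsSln 2 1 (1 : F) (pt Y) 1 δ := by
    rw [hδ]
    exact sln_of_tcn Nat.prime_two hm hα h10 hA one_ne_zero
      ⟨sv, hsd, fun k => ⟨1, one_ne_zero, by rw [one_pow, mul_one]⟩⟩
  refine ⟨zM (chiB h2) (pt Y) 1 δ, zM_mem (chiB h2) hm hα h10 hA monic_one squarefree_one
    isCoprime_one_left hsl hWl hWi, ?_⟩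
  rw [← lgs_i (chiB h2) hm hα h10 hA monic_one isCoprime_one_left hsl]
  apply Subtype.ext
  funext k
  have hne : ∀ k, toI F (δ k) ≠ 0 := fun k => (_root_.map_ne_zero _).2 (hsl.ne k)
  have hroot : ∃ y, ∏ k, toI F (δ k) = y ^ 2 := by
    obtain ⟨y, hy⟩ := hsl.prod
    exact ⟨toI F y, by rw [← map_prod, hy, map_pow]⟩
  rw [lgs_fst (UI (chiB h2)) hne hroot k]
  have h3 : toI F (δ k) = tv (-toI F (DK (1 : F) 1)) (fun i => toI F (AK (pt Y) i)) sv k := by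
    rw [hδ, map_tv, map_neg]
  have hDK : DK (1 : F) 1 ≠ 0 := DK_ne h10 one_ne_zero
  have hDI : toI F (DK (1 : F) 1) ≠ 0 := (_root_.map_ne_zero _).2 hDK
  have hAI : ∀ i k, i ≠ k → (fun i => toI F (AK (pt Y) i)) i ≠ (fun i => toI F (AK (pt Y) i)) k := by
    intro i k hik h
    exact hA i k hik (RatFunc.algebraMap_injective F ((toI F).injective h))
  have h4 : vl (wI F) (toI F (DK (1 : F) 1)) = 0 := by
    rw [DK, vl_inf_poly (mul_ne_zero (C_ne_zero.2 h10) one_ne_zero), mul_one, natDegree_C]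
    rfl
  have hd1 : ((d : ℕ) : ZMod 2) = 1 := by
    obtain ⟨j, rfl⟩ := hd
    push_cast
    have e : ∀ a : ZMod 2, 2 * a + 1 = 1 := by decide
    exact e _
  have h5 : ∀ i ∈ Finset.univ.erase k,
      (((sv i - sv k) * vl (wI F) (toI F (AK (pt Y) k) - toI F (AK (pt Y) i)) : ℤ) : ZMod 2) =
        s.1 i - s.1 k := by
    intro i hi
    have hki : k ≠ i := (Finset.ne_of_mem_erase hi).symm
    rw [wl2_sub_i, vl_inf_poly (sub_ne_zero.2 (hA k i hki)), tor_deg hY hki]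
    push_cast
    rw [hsv, hsv, hd1]
    have e : ∀ a : ZMod 2, a * -1 = a := by decide
    exact e _
  rw [h3, vl_tv hDI hAI, h4, mul_zero, zero_add, Int.cast_sum, Finset.sum_congr rfl h5,
    Finset.sum_sub_distrib, Finset.sum_const, Finset.card_erase_of_mem (Finset.mem_univ _),
    Finset.card_univ, Fintype.card_fin]
  have h6 : s.1 k + ∑ i ∈ Finset.univ.erase k, s.1 i = 0 := by
    rw [Finset.add_sum_erase _ _ (Finset.mem_univ k)]
    exact XX_sum s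
  have e : ∀ a b : ZMod 2, a + b = 0 → b - (3 - 1) • a = a := by decide
  exact e _ _ h6

end Pool.Agent.H68.PG
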