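import Pool.Agent.H68.PG.OKL
import Pool.Agent.H68.PG.TOR
import Pool.Agent.H68.PG.COO
import Pool.Agent.H94.PM.WLO

set_option autoImplicit false

/-!
# [H68 PG KER] The classes which are trivial at infinity
-/

namespace Pool.Agent.H68.PG

open Polynomial WithZero IsDedekindDomain
open Pool.Agent.H94.PL
open Pool.Agent.H94.PM
open Pool.Agent.H94.PC (pf mem_pf mem_pf' lam bt)
open Pool.Agent.H94.PS (Tr SX dgp WX mx RadX)

variable {F : Type} [Field F] [Finite F] {d : ℕ} {Y : Fin 3 → F[X]}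

theorem pf_one : IsEmpty (pf (1 : F[X])) := ⟨fun P => by
  obtain ⟨_, h2, h3⟩ := mem_pf' P.2
  exact h2.not_isUnit (isUnit_of_dvd_one h3)⟩

theorem xi_one (χ : LChar F 2) (Δ : F[X]) (x : pf (1 : F[X]) → XX 3 2) : xi χ Δ 1 x = 0 := by
  have := pf_one (F := F)
  refine Prod.ext ?_ ?_
  · show ∑ P : pf (1 : F[X]), (P.1.natDegree : ZMod 2) • x P = 0
    exact Finset.sum_eq_zero fun P _ => isEmptyElim P
  · funext v
    show ∑ P : pf (1 : F[X]), lm χ v.1 P.1 • x P = 0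
    exact Finset.sum_eq_zero fun P _ => isEmptyElim P

theorem ty_one (χ : LChar F 2) (Δ : F[X]) : ty χ Δ 1 = 0 := by
  refine Prod.ext ?_ ?_
  · show ((1 : F[X]).natDegree : ZMod 2) = 0
    rw [natDegree_one, Nat.cast_zero]
  · funext v
    exact lm_one_right χ v.1

theorem cls_one (χ : LChar F 2) {A : Fin 3 → F[X]} (v : pf (dl A)) : cls χ 1 v 0 = 0 := by
  show (v.1.natDegree : ZMod 2) * χ.lg 1 + 0 + χ.lg (-1) * ((v.1.natDegree : ZMod 2) * 0) = 0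
  rw [lg_one]
  ring

theorem km_iff (χ : LChar F 2) {A : Fin 3 → F[X]}
    {Wl : pf (dl A) → ZMod 2 → Submodule (ZMod 2) (XX 3 2 × XX 3 2)}
    {Wi : ZMod 2 → Submodule (ZMod 2) (XX 3 2 × XX 3 2)}
    {z : EE (XX 3 2) (pf (dl A)) × (pf (1 : F[X]) → XX 3 2)} :
    z ∈ KM χ (DC χ 1 A Wl Wi) 1 ↔ (∀ v, locv χ v (z.1, 0) ∈ Wl v 0) ∧ loci (z.1, 0) ∈ Wi 0 := by
  have := pf_one (F := F)
  rw [mem_KM, xi_one, ty_one]
  constructor
  · rintro ⟨h1, -⟩
    have h2 := (mem_WC χ).1 (show (z.1, 0) ∈ WC χ 1 Wl Wi 0 from h1)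
    refine ⟨fun v => ?_, ?_⟩
    · have h3 := h2.1 v
      rw [cls_one] at h3
      exact h3
    · have h3 := h2.2
      rw [Prod.fst_zero, neg_zero] at h3
      exact h3
  · rintro ⟨h1, h2⟩
    refine ⟨show (z.1, 0) ∈ WC χ 1 Wl Wi 0 from (mem_WC χ).2 ⟨fun v => ?_, ?_⟩,
      fun P => isEmptyElim P⟩
    · rw [cls_one]
      exact h1 v
    · rw [Prod.fst_zero, neg_zero]
      exact h2

/-- the first component at infinity -/
noncomputable def phi (χ : LChar F 2) {A : Fin 3 → F[X]}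
    (Wl : pf (dl A) → ZMod 2 → Submodule (ZMod 2) (XX 3 2 × XX 3 2))
    (Wi : ZMod 2 → Submodule (ZMod 2) (XX 3 2 × XX 3 2)) :
    KM χ (DC χ 1 A Wl Wi) 1 →ₗ[ZMod 2] XX 3 2 :=
  (LinearMap.fst (ZMod 2) (XX 3 2) (XX 3 2)) ∘ₗ loci ∘ₗ
    (LinearMap.inl (ZMod 2) (EE (XX 3 2) (pf (dl A))) (EE (XX 3 2) (pf (dl A)))) ∘ₗ
    (LinearMap.fst (ZMod 2) (EE (XX 3 2) (pf (dl A))) (pf (1 : F[X]) → XX 3 2)) ∘ₗ
    (KM χ (DC χ 1 A Wl Wi) 1).subtype

theorem phi_apply (χ : LChar F 2) {A : Fin 3 → F[X]}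
    (Wl : pf (dl A) → ZMod 2 → Submodule (ZMod 2) (XX 3 2 × XX 3 2))
    (Wi : ZMod 2 → Submodule (ZMod 2) (XX 3 2 × XX 3 2)) (z : KM χ (DC χ 1 A Wl Wi) 1) :
    phi χ Wl Wi z = (loci (z.1.1, 0)).1 := rfl

section
variable [DecidableEq (RatFunc F)] (h2 : (2 : F) ≠ 0) (hY : Tr d Y) (hd : Odd d)
    {Wl : pf (dl (pt Y)) → ZMod 2 → Submodule (ZMod 2) (XX 3 2 × XX 3 2)}
    {Wi : ZMod 2 → Submodule (ZMod 2) (XX 3 2 × XX 3 2)}
    (hWl : OKl (chiB h2) 1 (pt Y) Wl) (hWi : OKi (chiB h2) 1 1 (pt Y) Wi)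
include hY hd hWl hWi

theorem phi_sur : Function.Surjective (phi (chiB h2) Wl Wi) := by
  intro s
  obtain ⟨z, hz, hs⟩ := tor_sur h2 hY hd hWl hWi s
  rw [xi_one] at hs
  exact ⟨⟨z, hz⟩, hs⟩

theorem inf_inj (hci : ∀ b, Nat.card (Wi b) ≤ Nat.card (XX 3 2)) {g : XX 3 2 × XX 3 2}
    (hg : g ∈ Wi 0) (h0 : g.1 = 0) : g = 0 := by
  have hsur : Function.Surjective (fun g : Wi 0 => g.1.1) := by
    intro s
    obtain ⟨z, hz⟩ := phi_sur h2 hY hd hWl hWi s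
    exact ⟨⟨loci (z.1.1, 0), ((km_iff (chiB h2)).1 z.2).2⟩, hz⟩
  have hinj := (hsur.bijective_of_nat_card_le (hci 0)).1
  have h1 : (⟨g, hg⟩ : Wi 0) = ⟨0, (Wi 0).zero_mem⟩ := hinj h0
  exact congrArg Subtype.val h1

end

open Classical in
theorem locv_apply (χ : LChar F 2) {A : Fin 3 → F[X]} (v : pf (dl A))
    (e : EE (XX 3 2) (pf (dl A))) : locv χ v (e, 0) = (e.2 v, (v.1.natDegree : ZMod 2) • e.1 +
      ∑ v' ∈ Finset.univ.erase v, lm χ v'.1 v.1 • e.2 v') := by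
  refine Prod.ext rfl ?_
  show (v.1.natDegree : ZMod 2) • e.1 + ∑ v' ∈ Finset.univ.erase v, lm χ v'.1 v.1 • e.2 v' +
    0 + (χ.lg (-1) * (v.1.natDegree : ZMod 2)) • (0 : XX 3 2) = _
  rw [smul_zero, add_zero, add_zero]

theorem loci_apply {A : Fin 3 → F[X]} (e : EE (XX 3 2) (pf (dl A))) :
    loci (e, 0) = (-(∑ v : pf (dl A), (v.1.natDegree : ZMod 2) • e.2 v), e.1) := by
  refine Prod.ext ?_ rfl
  show -(∑ v : pf (dl A), (v.1.natDegree : ZMod 2) • e.2 v + 0) = _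
  rw [add_zero]

/-- the local condition at `p` for the exponents `x` and trivial constants -/
theorem loc_iff (h2 : (2 : F) ≠ 0) (hY : Tr d Y) (x : SX Y → ZMod 2) (p : SX Y) :
    locv (chiB h2) (eS hY p) ((0, yx hY x), 0) ∈ WlY hY (eS hY p) 0 ↔
      ∑ r, mx Y p r * x r = 0 := by
  classical
  have hcl := cla_eS hY p
  have e1 : WlY hY (eS hY p) 0 = WT (-p.1) (1 - p.1) (lam (Y (p.1 + 1)) p.2.1) := by
    rw [WlY, hcl, zero_add, eS_val]
  have e2 : yx hY x (eS hY p) = x p • ep 2 (-p.1) (1 - p.1) := by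
    rw [yx, hcl, Equiv.symm_apply_apply]
  have e3 := yx_loc h2 hY x p
  have e4 : locv (chiB h2) (eS hY p) ((0, yx hY x), 0) = (x p • ep 2 (-p.1) (1 - p.1),
      ∑ v' ∈ Finset.univ.erase (eS hY p), lm (chiB h2) v'.1 p.2.1 • yx hY x v') := by
    rw [locv_apply]
    refine Prod.ext e2 ?_
    show ((eS hY p).1.natDegree : ZMod 2) • (0 : XX 3 2) + _ = _
    rw [smul_zero, zero_add]
    refine Finset.sum_congr ?_ fun _ _ => rfl
    congr
  have e5 : ∀ i : Fin 3, (ep 2 (-i) (1 - i)).1 (-i) = 1 := by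
    intro i
    rw [ep_apply, if_pos rfl, if_neg, sub_zero]
    fin_cases i <;> decide
  have e6 : ∀ s s' : ZMod 2, s • ep 2 (-p.1) (1 - p.1) = s' • ep 2 (-p.1) (1 - p.1) → s = s' := by
    intro s s' h
    have h1 := congrArg (fun g : XX 3 2 => g.1 (-p.1)) h
    have h3 : s * (ep 2 (-p.1) (1 - p.1)).1 (-p.1) = s' * (ep 2 (-p.1) (1 - p.1)).1 (-p.1) := h1
    rwa [e5, mul_one, mul_one] at h3
  rw [e1, e4, mem_WT, ← e3]
  constructor
  · rintro ⟨s, h3, h4⟩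
    have h5 := e6 _ _ h3
    rw [← h5] at h4
    change (∑ v' ∈ Finset.univ.erase (eS hY p), lm (chiB h2) v'.1 p.2.1 • yx hY x v').1 (-p.1) +
      (∑ v' ∈ Finset.univ.erase (eS hY p), lm (chiB h2) v'.1 p.2.1 • yx hY x v').1 (1 - p.1) =
      x p * lam (Y (p.1 + 1)) p.2.1 at h4
    have h6 : (∑ v' ∈ Finset.univ.erase (eS hY p), lm (chiB h2) v'.1 p.2.1 • yx hY x v').1 (-p.1) +
      (∑ v' ∈ Finset.univ.erase (eS hY p), lm (chiB h2) v'.1 p.2.1 • yx hY x v').1 (1 - p.1) +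
      x p * lam (Y (p.1 + 1)) p.2.1 = 0 := by
      rw [h4]
      exact CharTwo.add_self_eq_zero _
    convert h6
  · intro h3
    refine ⟨x p, rfl, ?_⟩
    have h6 : (∑ v' ∈ Finset.univ.erase (eS hY p), lm (chiB h2) v'.1 p.2.1 • yx hY x v').1 (-p.1) +
      (∑ v' ∈ Finset.univ.erase (eS hY p), lm (chiB h2) v'.1 p.2.1 • yx hY x v').1 (1 - p.1) +
      x p * lam (Y (p.1 + 1)) p.2.1 = 0 := by
      convert h3
    have h7 : ∀ a b : ZMod 2, a + b = 0 → a = b := by decide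
    exact h7 _ _ h6

theorem ker_card [DecidableEq (RatFunc F)] (h2 : (2 : F) ≠ 0) (hY : Tr d Y) (hd : Odd d)
    {Wi : ZMod 2 → Submodule (ZMod 2) (XX 3 2 × XX 3 2)}
    (hWi : OKi (chiB h2) 1 1 (pt Y) Wi) (hci : ∀ b, Nat.card (Wi b) ≤ Nat.card (XX 3 2)) :
    Nat.card (LinearMap.ker (phi (chiB h2) (WlY hY) Wi)) = Nat.card (RadX Y) := by
  have hE := pf_one (F := F)
  have hmem : ∀ x : SX Y → ZMod 2, x ∈ RadX Y ↔ x ∈ WX Y ∧ ∀ p, ∑ r, mx Y p r * x r = 0 :=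
    fun x => Iff.rfl
  -- the map from `RadX`
  have hkm : ∀ x ∈ RadX Y, (((0, yx hY x), fun P => isEmptyElim P) :
      EE (XX 3 2) (pf (dl (pt Y))) × (pf (1 : F[X]) → XX 3 2)) ∈
        KM (chiB h2) (DC (chiB h2) 1 (pt Y) (WlY hY) Wi) 1 := by
    intro x hx
    rw [km_iff]
    refine ⟨fun v => ?_, ?_⟩
    · obtain ⟨p, rfl⟩ := (eS hY).surjective v
      exact (loc_iff h2 hY x p).2 (hx.2 p)
    · rw [loci_apply]
      have h1 := (wx_iff hY x).2 hx.1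
      show (-(∑ v : pf (dl (pt Y)), (v.1.natDegree : ZMod 2) • yx hY x v), (0 : XX 3 2)) ∈ Wi 0
      rw [h1, neg_zero]
      exact (Wi 0).zero_mem
  have hyinj : ∀ x x' : SX Y → ZMod 2, yx hY x = yx hY x' → x = x' := by
    intro x x' h
    funext p
    have h1 := congrArg (fun g : XX 3 2 => g.1 (-p.1)) (congrFun h (eS hY p))
    have e5 : ∀ i : Fin 3, (ep 2 (-i) (1 - i)).1 (-i) = 1 := by
      intro i
      rw [ep_apply, if_pos rfl, if_neg, sub_zero]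
      fin_cases i <;> decide
    have h3 : ∀ x : SX Y → ZMod 2, (yx hY x (eS hY p)).1 (-p.1) = x p := by
      intro x
      have e2 : yx hY x (eS hY p) = x p • ep 2 (-p.1) (1 - p.1) := by
        rw [yx, cla_eS hY p, Equiv.symm_apply_apply]
      rw [e2]
      show x p * (ep 2 (-p.1) (1 - p.1)).1 (-p.1) = x p
      rw [e5, mul_one]
    have h4 : (yx hY x (eS hY p)).1 (-p.1) = (yx hY x' (eS hY p)).1 (-p.1) := h1
    rwa [h3, h3] at h4
  symm
  refine Nat.card_congr (Equiv.ofBijective (fun x : RadX Y =>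
    (⟨⟨((0, yx hY x.1), fun P => isEmptyElim P), hkm x.1 x.2⟩, ?_⟩ :
      LinearMap.ker (phi (chiB h2) (WlY hY) Wi))) ⟨?_, ?_⟩)
  · rw [LinearMap.mem_ker, phi_apply, loci_apply]
    show -(∑ v : pf (dl (pt Y)), (v.1.natDegree : ZMod 2) • yx hY x.1 v) = 0
    rw [(wx_iff hY x.1).2 x.2.1, neg_zero]
  · intro x x' h
    apply Subtype.ext
    apply hyinj
    have h1 := congrArg (fun z : LinearMap.ker (phi (chiB h2) (WlY hY) Wi) => z.1.1.1.2) h
    exact h1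
  · rintro ⟨⟨z, hz⟩, hz0⟩
    rw [LinearMap.mem_ker, phi_apply] at hz0
    have hz' := (km_iff (chiB h2)).1 hz
    have hκ : z.1.1 = 0 := by
      have h1 := inf_inj h2 hY hd (okl_WlY h2 hY) hWi hci hz'.2 hz0
      rw [loci_apply] at h1
      exact congrArg Prod.snd h1
    -- the exponents
    have hs : ∀ p : SX Y, ∃ s : ZMod 2, z.1.2 (eS hY p) = s • ep 2 (-p.1) (1 - p.1) := by
      intro p
      have h1 := hz'.1 (eS hY p)
      rw [WlY, cla_eS hY p] at h1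
      obtain ⟨s, h3, -⟩ := h1
      exact ⟨s, h3⟩
    choose x hx using hs
    have hy : z.1.2 = yx hY x := by
      funext v
      obtain ⟨p, rfl⟩ := (eS hY).surjective v
      rw [hx p, yx, cla_eS hY p, Equiv.symm_apply_apply]
    have hz1 : z.1 = (0, yx hY x) := Prod.ext hκ hy
    have hxr : x ∈ RadX Y := by
      refine ⟨(wx_iff hY x).1 ?_, fun p => ?_⟩
      · rw [hz1, loci_apply] at hz0
        have h1 : -(∑ v : pf (dl (pt Y)), (v.1.natDegree : ZMod 2) • yx hY x v) = 0 := hz0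
        rwa [neg_eq_zero] at h1
      · have h1 := hz'.1 (eS hY p)
        rw [hz1] at h1
        exact (loc_iff h2 hY x p).1 h1
    refine ⟨⟨x, hxr⟩, ?_⟩
    apply Subtype.ext
    apply Subtype.ext
    refine Prod.ext hz1.symm ?_
    funext P
    exact isEmptyElim P

end Pool.Agent.H68.PG
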