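import Pool.Agent.H68.PG.G0
import Pool.Agent.H94.PM.WL2

set_option autoImplicit false

/-!
# [H68 PG OKL] The local conditions at the primes of bad reduction, 60-100 lines

`Y : Fin 3 → F[X]`, `Tr d Y` (sum zero, squarefree product), points `pt Y = (0, Y 0, -Y 1)`, `pt Y (1 - i) - pt Y (-i) = Y i` (`pt_sub`), `pt Y (-i) - pt Y (2 - i) = Y (i + 1)` (`pt_sub2`); `cla hY v` = the class `i` with `v ∣ Y i` (`cla_dvd`).
* `card_WlY`: `card_WT` with `m = 3`, `-i ≠ 1 - i` in `Fin 3` (`fin_cases` or `decide`).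
* `okl_WlY`: unfold `OKl`; `v`, `D' ≠ 0`, `vl D' = 0` in `ZMod 2`.  `gam_WT` with `U = UV χ v` (`χ = chiB h2`), `A = fun k => toV v (AK (pt Y) k)`, `i = -cla v`, `k = 1 - cla v`, `ϖ = toP v v` (`wP_self`; as in `exists_lokx` in `Pool/Agent/H94/PN/LOKX.lean` and
  the end of `Pool/Agent/H94/PM/WL2.lean`, where `gam_WT` is applied).  Its hypotheses: the completion is complete (as in `PM.gam_D` users; `Valued` instance of `adicCompletion`: see WL2), `hm : Nat.Coprime 3 2`, `hα : 2 ∣ 1 * 3 + 1`;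
  `A i - A k = toV v (algebraMap (pt Y (-i) - pt Y (1 - i)))` (`wl2_sub_v`) `= toV v (algebraMap (-Y i))`, `v ∣ Y i` and `¬ v ^ 2 ∣ Y i` (`tr_sq`), so its valuation is `exp (-1)` (`wP_simple`) and `vl = 1`;
  the other differences are `± Y j`, `j ≠ i`, not divisible by `v` (`tr_cop`), valuation `1` (`wP_eq_one`; for all pairs `a ≠ b` other than the pair: `fin_cases` on `i`, `a`, `b` or: the third point is `2 - i`, so one of `a`, `b` is `2 - i`).
  The constant of `gam_WT`: `U.un D' + (U.un (-1) + U.un (A k - A i) + psL U A i)`, `psL U A i = ∑ k' ≠ i, un (A i - A k') = un (A i - A k) + un (A i - A j)`, `j = 2 - cla v` the third point; `un (A k - A i) = un (-1) + un (A i - A k)` (`un_neg`), and `un (-1) + un (-1) = 0`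
  (`un_neg_one_add`), characteristic `2`: the constant is `un D' + un (A i - A j)`, `A i - A j = toV v (algebraMap (Y (cla v + 1)))` (`pt_sub2`), `un` of it is `lm χ (Y (cla v + 1)) v = lam ..` (`UP_poly`, `lm_chiB`).
-/

namespace Pool.Agent.H68.PG

open Polynomial WithZero IsDedekindDomain
open Pool.Agent.H94.PL
open Pool.Agent.H94.PM
open Pool.Agent.H94.PC (pf mem_pf mem_pf' lam bt)
open Pool.Agent.H94.PS (Tr SX dgp WX mx RadX)

variable {F : Type} [Field F] [Finite F] {d : ℕ} {Y : Fin 3 → F[X]}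

private theorem okl_ne (i : Fin 3) : -i ≠ 1 - i := by
  revert i
  decide

private theorem okl_pair : ∀ a b : Fin 3, a ≠ b →
    ∃ j : Fin 3, (a = 1 - j ∧ b = -j) ∨ (a = -j ∧ b = 1 - j) := by
  decide

private theorem okl_erase : ∀ i : Fin 3,
    (Finset.univ : Finset (Fin 3)).erase (-i) = {1 - i, 2 - i} := by
  decide

private theorem okl_ne2 : ∀ i : Fin 3, (1 : Fin 3) - i ≠ 2 - i := by
  decide

private theorem okl_ne3 : ∀ i : Fin 3, i ≠ i + 1 := by
  decide

theorem card_WlY (hY : Tr d Y) (v : pf (dl (pt Y))) (b : ZMod 2) :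
    Nat.card (WlY hY v b) ≤ Nat.card (XX 3 2) := by
  rw [WlY, card_WT le_rfl (okl_ne _)]

theorem okl_WlY (h2 : (2 : F) ≠ 0) (hY : Tr d Y) : OKl (chiB h2) 1 (pt Y) (WlY hY) := by
  classical
  have hm : Nat.Coprime 3 2 := by decide
  have hα : 2 ∣ 1 * 3 + 1 := by decide
  intro v D' hD' hvD'
  obtain ⟨i, hi⟩ : ∃ i, i = cla hY v := ⟨_, rfl⟩
  have hdv : v.1 ∣ Y i := by
    rw [hi]
    exact cla_dvd hY v
  have hv := mem_pf' v.2
  have hs1 : pt Y (-i) - pt Y (1 - i) = -Y i := by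
    rw [← pt_sub hY.sum i]
    ring
  have hne0 : toV v (algebraMap F[X] (RatFunc F) (Y i)) ≠ 0 :=
    (_root_.map_ne_zero _).2 (RatFunc.algebraMap_ne_zero (tr_ne hY i))
  have hvl : vl (wP v.1 (mem_pf' v.2).2.1) (toV v (AK (pt Y) (-i)) -
      toV v (AK (pt Y) (1 - i))) = 1 := by
    rw [wl2_sub_v, hs1, map_neg, map_neg, vl_neg, vl_eq_iff hne0]
    exact wP_simple hv.2.1 hdv (tr_sq hY hv.2.1 i)
  have h1 : 1 ≤ vl (wP v.1 (mem_pf' v.2).2.1) (toV v (AK (pt Y) (-i)) -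
      toV v (AK (pt Y) (1 - i))) := hvl.ge
  have h3 : Odd (vl (wP v.1 (mem_pf' v.2).2.1) (toV v (AK (pt Y) (-i)) -
      toV v (AK (pt Y) (1 - i)))) := by
    rw [hvl]
    exact odd_one
  have hAA : ∀ a b, a ≠ b → ¬ (a = -i ∧ b = 1 - i) → ¬ (a = 1 - i ∧ b = -i) →
      (wP v.1 (mem_pf' v.2).2.1) (toV v (AK (pt Y) a) - toV v (AK (pt Y) b)) = 1 := by
    intro a b hab h4 h5
    rw [wl2_sub_v]
    refine wP_eq_one (mem_pf' v.2).2.1 fun h6 => ?_
    obtain ⟨j, hj⟩ := okl_pair a b hab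
    have hji : j ≠ i := by
      rintro rfl
      rcases hj with hj | hj
      · exact h5 hj
      · exact h4 hj
    have h7 : v.1 ∣ Y j := by
      rcases hj with hj | hj
      · rw [hj.1, hj.2, pt_sub hY.sum j] at h6
        exact h6
      · rw [hj.1, hj.2] at h6
        have h8 : pt Y (-j) - pt Y (1 - j) = -Y j := by
          rw [← pt_sub hY.sum j]
          ring
        rw [h8, dvd_neg] at h6
        exact h6
    exact tr_cop hY hv.2.1 hji h7 hdv
  have hG := gam_WT (UV (chiB h2) v) (wP_self v.1 (mem_pf' v.2).2.1) hm hα hD' hvD'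
    (A := fun k => toV v (AK (pt Y) k)) (okl_ne i) h1 h3 hAA
  have hcst : (UV (chiB h2) v).un (-1) + (UV (chiB h2) v).un (toV v (AK (pt Y) (1 - i)) -
      toV v (AK (pt Y) (-i))) + psL (UV (chiB h2) v) (fun k => toV v (AK (pt Y) k)) (-i) =
      lam (Y (i + 1)) v.1 := by
    have e1 : (UV (chiB h2) v).un (toV v (AK (pt Y) (1 - i)) - toV v (AK (pt Y) (-i))) =
        (UV (chiB h2) v).un (-1) +
          (UV (chiB h2) v).un (toV v (AK (pt Y) (-i)) - toV v (AK (pt Y) (1 - i))) := by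
      have e2 : toV v (AK (pt Y) (-i)) - toV v (AK (pt Y) (1 - i)) ≠ 0 := by
        rw [wl2_sub_v, hs1, map_neg, map_neg]
        exact neg_ne_zero.2 hne0
      rw [← (UV (chiB h2) v).un_neg e2, neg_sub]
    have e3 : (UV (chiB h2) v).un (toV v (AK (pt Y) (-i)) - toV v (AK (pt Y) (2 - i))) =
        lam (Y (i + 1)) v.1 := by
      rw [wl2_sub_v, pt_sub2 hY.sum i]
      have e4 : ¬ v.1 ∣ Y (i + 1) := fun h => tr_cop hY hv.2.1 (okl_ne3 i) hdv h
      exact UP_poly (chiB h2) hv.1 hv.2.1 e4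
    unfold psL
    rw [okl_erase i, Finset.sum_pair (okl_ne2 i), e3, e1]
    have e5 : ∀ a b c : ZMod 2, a + (a + b) + (b + c) = c := by decide
    exact e5 _ _ _
  show Gam (UV (chiB h2) v) 1 D' (fun k => toV v (AK (pt Y) k)) ≤
    WT (-cla hY v) (1 - cla hY v) ((UV (chiB h2) v).un D' + lam (Y (cla hY v + 1)) v.1)
  rw [← hi, ← hcst]
  exact hG

end Pool.Agent.H68.PG
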